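import Mathlib
import Pool.Agent.Q164.Mask

/-!
# The unique subset exchange relation is not symmetric
-/

set_option autoImplicit false

namespace Pool.Agent.Results.MP_2d361f_co.NotSymmetric

open Pool.Agent.Q164.Mask

/-- The sets `Y ⊆ B` for which exchanging `X ⊆ A` with `Y` gives two bases. -/
def exchangeSets {α : Type} (M : Matroid α) (X A B : Set α) : Set (Set α) :=
  {Y | Y ⊆ B ∧ M.IsBase ((A \ X) ∪ Y) ∧ M.IsBase ((B \ Y) ∪ X)}

/-- The sequence `𝓑'` arises from `𝓑` by a unique subset exchange. -/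
def UniqueExchange {α : Type} (M : Matroid α) {m : ℕ} (𝓑 𝓑' : Fin m → Set α) : Prop :=
  ∃ i j : Fin m, i < j ∧ ∃ X Y : Set α, X ⊆ 𝓑 i ∧ exchangeSets M X (𝓑 i) (𝓑 j) = {Y} ∧
    𝓑' i = (𝓑 i \ X) ∪ Y ∧ 𝓑' j = (𝓑 j \ Y) ∪ X ∧ ∀ k, k ≠ i → k ≠ j → 𝓑' k = 𝓑 k

/-- The relation `≃₃`: reachability by a finite chain of unique subset exchanges. -/
def Reach {α : Type} (M : Matroid α) {m : ℕ} : (Fin m → Set α) → (Fin m → Set α) → Prop :=
  Relation.ReflTransGen (UniqueExchange M)

/-- Independence of the mask `a`: rank four on eight points, the line `{0, 4, 6}`, the planes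
`{0, 3, 4, 6, 7}` and `{0, 1, 5, 7}`. -/
def ind (a : ℕ) : Bool :=
  decide (pc 8 (a &&& 81) ≤ 2) && decide (pc 8 (a &&& 217) ≤ 3) && decide (pc 8 (a &&& 163) ≤ 3) &&
    decide (pc 8 a ≤ 4)

theorem good : Good 8 ind :=
  good_of_check (by decide +kernel) (by decide +kernel) (by decide +kernel)

/-- The matroid. -/
noncomputable abbrev M : Matroid (Fin 8) := matroid good

theorem ncard_le (I : Set (Fin 8)) (h : M.Indep I) : I.ncard ≤ 4 := by
  rw [matroid_indep] at h
  rw [← pc_mk]
  unfold ind at h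
  rw [Bool.and_eq_true] at h
  exact of_decide_eq_true h.2

/-- A base as a mask. -/
def isB (a : ℕ) : Bool := ind a && decide (pc 8 a = 4)

instance : M.Finite := ⟨by rw [matroid_E]; exact Set.finite_univ⟩

theorem isBase_iff_mk (B : Set (Fin 8)) : M.IsBase B ↔ isB (mk B) = true := by
  have h0 : M.Indep (st 8 43) := by
    rw [matroid_indep, mk_st (by norm_num)]
    decide +kernel
  have h1 : (st 8 43).ncard = 4 := by
    rw [← pc_mk, mk_st (by norm_num)]
    decide +kernel
  rw [isBase_iff 4 h0 h1 ncard_le, matroid_indep, isB, Bool.and_eq_true, decide_eq_true_iff, pc_mk]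

/-- The exchange condition on masks. -/
def ex (x a b y : ℕ) : Bool :=
  decide (y &&& b = y) && isB ((a ^^^ (a &&& x)) ||| y) && isB ((b ^^^ (b &&& y)) ||| x)

theorem mem_exchangeSets (X A B Y : Set (Fin 8)) :
    Y ∈ exchangeSets M X A B ↔ ex (mk X) (mk A) (mk B) (mk Y) = true := by
  unfold exchangeSets ex
  rw [Set.mem_ofPred_eq, isBase_iff_mk, isBase_iff_mk, Bool.and_eq_true, Bool.and_eq_true,
    decide_eq_true_iff, mk_subset, mk_union, mk_union, mk_sdiff, mk_sdiff, and_assoc]

/-- `A = {1, 4, 5, 6}`, `B = {0, 2, 3, 7}`, `A' = {0, 1, 3, 5}`, `B' = {2, 4, 6, 7}`. -/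
def sA : Set (Fin 8) := st 8 114
def sB : Set (Fin 8) := st 8 141
def sA' : Set (Fin 8) := st 8 43
def sB' : Set (Fin 8) := st 8 212

theorem mk_sA : mk sA = 114 := mk_st (by norm_num)
theorem mk_sB : mk sB = 141 := mk_st (by norm_num)
theorem mk_sA' : mk sA' = 43 := mk_st (by norm_num)
theorem mk_sB' : mk sB' = 212 := mk_st (by norm_num)

/-- Only trivial unique exchanges are possible for the ordered pair with masks `(a, b)`. -/
def sink (a b : ℕ) : Bool :=
  (List.range 256).all fun x =>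
    !(decide (x &&& a = x)) || decide (x = 0) || decide (x = a) ||
      (List.range 256).any fun y => ex x a b y && (List.range y).any fun z => ex x a b z

theorem sink_of {a b : ℕ} (h : sink a b = true) {A B : Set (Fin 8)} (hA : mk A = a) (hB : mk B = b)
    {X Y : Set (Fin 8)} (hX : X ⊆ A) (hY : exchangeSets M X A B = {Y}) : X = ∅ ∨ X = A := by
  have h1 := mk_subset.1 hX
  rw [hA] at h1
  rw [sink, List.all_eq_true] at h
  have h2 := h (mk X) (List.mem_range.2 (mk_lt X))
  rw [decide_eq_true h1, Bool.not_true, Bool.false_or, Bool.or_eq_true, Bool.or_eq_true,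
    decide_eq_true_iff, decide_eq_true_iff] at h2
  rcases h2 with (h2 | h2) | h2
  · left
    apply mk_injective
    rw [h2, mk_empty]
  · right
    apply mk_injective
    rw [h2, hA]
  · exfalso
    rw [List.any_eq_true] at h2
    obtain ⟨y, hy, h3⟩ := h2
    rw [Bool.and_eq_true, List.any_eq_true] at h3
    obtain ⟨h3, z, hz, h4⟩ := h3
    rw [List.mem_range] at hy hz
    have hy8 : y < 2 ^ 8 := by omega
    have hz8 : z < 2 ^ 8 := by omega
    have h5 : st 8 y ∈ exchangeSets M X A B := by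
      rw [mem_exchangeSets, hA, hB, mk_st hy8]
      exact h3
    have h6 : st 8 z ∈ exchangeSets M X A B := by
      rw [mem_exchangeSets, hA, hB, mk_st hz8]
      exact h4
    rw [hY, Set.mem_singleton_iff] at h5 h6
    have h7 : y = z := by
      rw [← mk_st hy8, ← mk_st hz8, h5, h6]
    omega

theorem sink1 : sink 43 212 = true := by decide +kernel
theorem sink2 : sink 212 43 = true := by decide +kernel

theorem empty_mem {A B : Set (Fin 8)} (hA : M.IsBase A) (hB : M.IsBase B) :
    ∅ ∈ exchangeSets M ∅ A B := by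
  refine ⟨Set.empty_subset _, ?_, ?_⟩
  · simpa using hA
  · simpa using hB

theorem full_mem {A B : Set (Fin 8)} (hA : M.IsBase A) (hB : M.IsBase B) :
    B ∈ exchangeSets M A A B := by
  refine ⟨subset_rfl, ?_, ?_⟩
  · simpa using hB
  · simpa using hA

theorem base_sA : M.IsBase sA := by
  rw [isBase_iff_mk, mk_sA]
  decide +kernel

theorem base_sB : M.IsBase sB := by
  rw [isBase_iff_mk, mk_sB]
  decide +kernel

theorem base_sA' : M.IsBase sA' := by
  rw [isBase_iff_mk, mk_sA']
  decide +kernel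

theorem base_sB' : M.IsBase sB' := by
  rw [isBase_iff_mk, mk_sB']
  decide +kernel

/-- The two base sequences. -/
def seqs : Fin 2 → Set (Fin 8) := ![sA, sB]
def seqs' : Fin 2 → Set (Fin 8) := ![sA', sB']

theorem step_closed {𝓑 𝓒 : Fin 2 → Set (Fin 8)} (h : UniqueExchange M 𝓑 𝓒)
    (hB : (𝓑 0 = sA' ∧ 𝓑 1 = sB') ∨ (𝓑 0 = sB' ∧ 𝓑 1 = sA')) :
    (𝓒 0 = sA' ∧ 𝓒 1 = sB') ∨ (𝓒 0 = sB' ∧ 𝓒 1 = sA') := by
  obtain ⟨i, j, hij, X, Y, hX, hE, h1, h2, -⟩ := h
  have hi : i = 0 := by omega
  have hj : j = 1 := by omega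
  subst hi hj
  have key : ∀ A B : Set (Fin 8), M.IsBase A → M.IsBase B → sink (mk A) (mk B) = true →
      𝓑 0 = A → 𝓑 1 = B → (𝓒 0 = A ∧ 𝓒 1 = B) ∨ (𝓒 0 = B ∧ 𝓒 1 = A) := by
    intro A B hA hB' hs h3 h4
    rw [h3] at hX hE h1
    rw [h4] at hE h2
    rcases sink_of hs rfl rfl hX hE with h5 | h5
    · subst h5
      have h6 := empty_mem hA hB'
      rw [hE, Set.mem_singleton_iff] at h6
      subst h6
      left
      exact ⟨by rw [h1]; simp, by rw [h2]; simp⟩
    · subst h5
      have h6 := full_mem hA hB'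
      rw [hE, Set.mem_singleton_iff] at h6
      subst h6
      right
      exact ⟨by rw [h1]; simp, by rw [h2]; simp⟩
  rcases hB with ⟨h3, h4⟩ | ⟨h3, h4⟩
  · exact key sA' sB' base_sA' base_sB' (by rw [mk_sA', mk_sB']; exact sink1) h3 h4
  · have := key sB' sA' base_sB' base_sA' (by rw [mk_sA', mk_sB']; exact sink2) h3 h4
    tauto

theorem reach_closed {𝓒 : Fin 2 → Set (Fin 8)} (h : Reach M seqs' 𝓒) :
    (𝓒 0 = sA' ∧ 𝓒 1 = sB') ∨ (𝓒 0 = sB' ∧ 𝓒 1 = sA') := by
  induction h with
  | refl => exact Or.inl ⟨rfl, rfl⟩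
  | tail _ h ih => exact step_closed h ih

/-- The unique exchange from `(A, B)` to `(A', B')`. -/
theorem check_step : ((List.range 256).all fun y =>
    ex 80 114 141 y == decide (y = 9)) = true := by decide +kernel

theorem step : UniqueExchange M seqs seqs' := by
  refine ⟨0, 1, by decide, st 8 80, st 8 9, ?_, ?_, ?_, ?_, ?_⟩
  · show st 8 80 ⊆ sA
    rw [mk_subset, mk_sA, mk_st (by norm_num)]
    decide
  · ext Y
    show Y ∈ exchangeSets M (st 8 80) sA sB ↔ _
    rw [mem_exchangeSets, mk_sA, mk_sB, mk_st (by norm_num), Set.mem_singleton_iff]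
    have h := check_step
    rw [List.all_eq_true] at h
    have h1 := h (mk Y) (List.mem_range.2 (mk_lt Y))
    rw [beq_iff_eq] at h1
    rw [h1, decide_eq_true_iff]
    constructor
    · intro h2
      apply mk_injective
      rw [h2, mk_st (by norm_num)]
    · rintro rfl
      exact mk_st (by norm_num)
  · show sA' = (sA \ st 8 80) ∪ st 8 9
    apply mk_injective
    rw [mk_union, mk_sdiff, mk_sA, mk_sA', mk_st (by norm_num), mk_st (by norm_num)]
    decide
  · show sB' = (sB \ st 8 9) ∪ st 8 80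
    apply mk_injective
    rw [mk_union, mk_sdiff, mk_sB, mk_sB', mk_st (by norm_num), mk_st (by norm_num)]
    decide
  · intro k h0 h1
    omega

/-- There are a matroid of rank four on eight elements and two base sequences of length two such
that the second is reachable from the first by unique subset exchanges, but not conversely. -/
theorem result : ∃ (M : Matroid (Fin 8)) (𝓑 𝓑' : Fin 2 → Set (Fin 8)),
    (∀ i, M.IsBase (𝓑 i)) ∧ (∀ i, M.IsBase (𝓑' i)) ∧ Reach M 𝓑 𝓑' ∧ ¬ Reach M 𝓑' 𝓑 := by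
  refine ⟨M, seqs, seqs', ?_, ?_, Relation.ReflTransGen.single step, ?_⟩
  · intro i
    fin_cases i
    · exact base_sA
    · exact base_sB
  · intro i
    fin_cases i
    · exact base_sA'
    · exact base_sB'
  · intro h
    rcases reach_closed h with h1 | h1
    · have h2 : mk sA = mk sA' := congrArg mk h1.1
      rw [mk_sA, mk_sA'] at h2
      omega
    · have h2 : mk sA = mk sB' := congrArg mk h1.1
      rw [mk_sA, mk_sB'] at h2
      omega

end Pool.Agent.Results.MP_2d361f_co.NotSymmetric
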